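import Pool.Agent.Lib.KH.Blue
import Pool.Agent.Lib.NV5.X_KXA
import Pool.Agent.Lib.RAA.T_EM3
import Pool.Agent.Lib.HS76.Diag
import Pool.Agent.Lib.EXH.B_APX

/-! Project kb, block G: the direct image of the Jacobian measure is bounded by a multiple of the
measure of Lebesgue. -/

open scoped Classical Topology ContDiff ComplexOrder Matrix ENNReal
open Set MeasureTheory Complex Metric Filter

noncomputable section

namespace Pool.Agent.Lib.KG56

open Pool.Agent.Lib.SV (E)
open Pool.Agent.Lib.HS32 Pool.Agent.Lib.HS32.Mf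
open Pool.Agent.Lib.KH (HoK Pol OnK)
open Pool.Agent.Lib.RAA (hl hr)
open Pool.Agent.Lib.RAA.EM3 (hess_log dd_psd shift)
open Pool.Agent.Lib.DM (r1)
open Pool.Agent.Lib.DM.K63 (psd_closed)
open Pool.Agent.Lib.EXS.K32 (hol_cd)

variable {n k : ℕ}

/-- The matrix of the derivatives in a chart. -/
def jac (M : Mf n) (z : Fin k → M.X → ℂ) (e : M.Ch) (w : E n) : Matrix (Fin k) (Fin n) ℂ :=
  Matrix.of fun i j => dz j (z i ∘ e.symm) w

/-- The determinant of Gram. -/
def gm (A : Matrix (Fin k) (Fin n) ℂ) (T : Mat n) : ℝ := (A * T⁻¹ * Aᴴ).det.re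

/-- The squared norm of `dz_1 ∧ ... ∧ dz_k`. -/
def jq (M : Mf n) (H : M.Fam (Mat n)) (z : Fin k → M.X → ℂ) : M.X → ℝ :=
  M.ev fun e w => gm (jac M z e w) (H e w)

/-- The functions `z i` are quotients with the denominator of squared norm `p`. -/
structure Dt (M : Mf n) (H : M.Fam (Mat n)) (O : Set M.X) (p : M.X → ℝ)
    (z : Fin k → M.X → ℂ) : Prop where
  kae : M.Kae H
  pol : Pol M H p
  mem : ∀ x, p x ≠ 0 ↔ x ∈ O
  den : Dense O
  hol : ∀ i, HoK M O (z i)
  sq : ∀ i y, ∃ q, M.Sm q ∧ ∀ x ∈ O, q x = p x * normSq (z i x - y)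

namespace PU

section euc

variable {V P : E n → ℝ} {g : E n → ℂ} {w : E n} {T : Mat n}

theorem hl_shift (hV : ContDiffAt ℝ ∞ V w) {d : ℝ} (h : V w + d ≠ 0) :
    hl (fun y => V y + d) w = (V w + d)⁻¹ • hr V w -
      ((V w + d)⁻¹ ^ 2) • dd (fun y => (V y : ℂ)) (fun y => (V y : ℂ)) w := by
  obtain ⟨s1, s2⟩ := shift hV d
  rw [hess_log (V := fun y => V y + d) (hV.add contDiffAt_const) h, s1, s2]

theorem lim0 (hP : ContDiffAt ℝ ∞ P w) (h0 : 0 < P w)
    (h : ∀ d ∈ Ioc (0 : ℝ) 1, (T + hl (fun y => P y + d) w).PosSemidef) :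
    (T + hl P w).PosSemidef := by
  have c : ContinuousAt (fun d : ℝ => (P w + d)⁻¹) 0 :=
    (continuousAt_const.add continuousAt_id).inv₀ (by simpa using h0.ne')
  have t : ContinuousAt (fun d : ℝ => T + ((P w + d)⁻¹ • hr P w -
      ((P w + d)⁻¹ ^ 2) • dd (fun y => (P y : ℂ)) (fun y => (P y : ℂ)) w)) 0 :=
    continuousAt_const.add ((c.smul continuousAt_const).sub ((c.pow 2).smul continuousAt_const))
  have := psd_closed.mem_of_tendsto (t.tendsto.mono_left (nhdsWithin_le_nhds (s := Ioi 0))) (by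
    filter_upwards [Ioc_mem_nhdsGT one_pos] with d hd
    rw [← hl_shift hP (add_pos h0 hd.1).ne']
    exact h d hd)
  rwa [add_zero, ← hess_log hP h0.ne'] at this

theorem up (hV : ContDiffAt ℝ ∞ V w) (h0 : 0 < V w) {η : ℝ} (hη : 0 < η) :
    (hl (fun y => V y + η) w - (V w / (V w + η)) • hl V w).PosSemidef := by
  have hp : 0 < V w + η := add_pos h0 hη
  have a1 : V w / (V w + η) * (V w)⁻¹ = (V w + η)⁻¹ := by field_simp
  have a2 : η / (V w * (V w + η) ^ 2) =
    V w / (V w + η) * (V w)⁻¹ ^ 2 - (V w + η)⁻¹ ^ 2 := by field_simp; ring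
  have := (dd_psd hV).smul (show 0 ≤ η / (V w * (V w + η) ^ 2) by positivity)
  rw [hl_shift hV hp.ne', hess_log hV h0.ne', smul_sub, smul_smul, smul_smul, a1]
  rwa [a2, sub_smul, show ∀ a b c : Mat n, a - b - (a - c) = c - b from fun a b c => by abel] at *

theorem key (hP : ContDiffAt ℝ ∞ P w) (h0 : 0 < P w) (hg : HolN g w) {s η : ℝ} (hs : 0 ≤ s)
    (hη : 0 < η) (hT : T.PosSemidef) (h : (T + hl P w).PosSemidef)
    (e : V =ᶠ[𝓝 w] fun y => P y * (1 + s * normSq (g y))) {t : ℝ}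
    (ht : t = 0 ∨ t = s / 8 ∧ η ≤ P w ∧ s * normSq (g w) ≤ 1) :
    (T + hl (fun y => V y + η) w - t • r1 fun j => dz j g w).PosSemidef := by
  have h1 : ContDiffAt ℝ ∞ (fun y => 1 + s * normSq (g y)) w :=
    contDiffAt_const.add (contDiffAt_const.mul (cd_normSq (hol_cd hg)))
  have h2 : ∀ y, 1 ≤ 1 + s * normSq (g y) := fun y =>
    le_add_of_nonneg_right (mul_nonneg hs (normSq_nonneg _))
  have hV : ContDiffAt ℝ ∞ V w := (hP.mul h1).congr_of_eventuallyEq e
  have h3 : P w ≤ V w := e.self_of_nhds.ge.trans' (le_mul_of_one_le_right h0.le (h2 w))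
  have h4 := h0.trans_le h3
  set c := √s / (1 + s * normSq (g w)) with hc
  set l := V w / (V w + η) with hl'
  have e2 : hl V w = hl P w + c ^ 2 • r1 fun j => dz j g w := by
    have : r1 (fun j => (c : ℂ) * dz j g w) = c ^ 2 • r1 fun j => dz j g w := by
      ext i j
      simp only [r1, Matrix.vecMulVec_apply, Pi.star_apply, Matrix.smul_apply, star_mul',
        real_smul, ofReal_pow, star_def, conj_ofReal]
      ring
    rw [← this, ← DM.LOG.one36 hg hs, hl, hl, hl,
      ← hess_add (cd_ofReal (hP.log h0.ne')) (cd_ofReal (h1.log (one_pos.trans_le (h2 w)).ne'))]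
    refine hess_congr ?_
    filter_upwards [e, hP.continuousAt.eventually (lt_mem_nhds h0)] with y a b
    rw [← ofReal_add, ← Real.log_mul b.ne' (one_pos.trans_le (h2 y)).ne', a]
  have l0 : 0 ≤ l := by positivity
  have l1 : l ≤ 1 := div_le_one_of_le₀ (by linarith) (by linarith)
  have l2 : t ≤ l * c ^ 2 := by
    rcases ht with rfl | ⟨rfl, a, b⟩
    · positivity
    · have u1 : 1 / 2 ≤ l := by rw [hl', le_div_iff₀ (by linarith)]; linarith
      have u2 : s / 4 ≤ c ^ 2 := by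
        rw [hc, div_pow, Real.sq_sqrt hs]
        exact div_le_div_of_nonneg_left hs (pow_pos (one_pos.trans_le (h2 w)) 2)
          (by nlinarith [h2 w])
      nlinarith [mul_le_mul u1 u2 (by positivity) l0]
  have := (((up hV h4 hη).add (h.smul l0)).add (hT.smul (sub_nonneg.2 l1))).add
    ((Matrix.posSemidef_vecMulVec_star_self fun j => dz j g w).smul (sub_nonneg.2 l2))
  rw [e2] at this
  refine (congrArg Matrix.PosSemidef ?_).mp this
  simp only [r1, ← hl']
  module

theorem gm_psd (A : Matrix (Fin k) (Fin n) ℂ) (hT : T.PosDef) : (A * T⁻¹ * Aᴴ).PosSemidef :=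
  hT.inv.posSemidef.mul_mul_conjTranspose_same A

theorem det_ge {S : Mat n} (hT : T.PosDef) (A : Matrix (Fin k) (Fin n) ℂ) {t : ℝ} (ht : 0 ≤ t)
    (h : (S - (T + t • (Aᴴ * A))).PosSemidef) : t ^ k * gm A T ≤ (S.det / T.det).re := by
  have h1 := HS76.det_mono (hT.add_posSemidef
    ((Matrix.posSemidef_conjTranspose_mul_self A).smul ht)) h
  obtain ⟨lam, hl⟩ := HS76.eig (Matrix.PosDef.one (n := Fin k) (R := ℂ)) (gm_psd A hT).1
  have h2 := hl.det 1 t
  have h3 := hl.det_eq
  have h4 : (T + t • (Aᴴ * A)).det = T.det * ((∏ i, (1 + t * lam i) : ℝ) : ℂ) := by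
    rw [← Matrix.mul_smul, Matrix.det_add_mul _ _ (pd_det_ne hT).isUnit, Matrix.smul_mul,
      Matrix.smul_mul]
    rw [one_smul, Matrix.det_one, one_mul] at h2
    push_cast
    rw [← h2]
    rfl
  have h5 : t ^ k * gm A T ≤ ∏ i, (1 + t * lam i) := by
    rw [gm, h3, Matrix.det_one, one_mul, ofReal_re, ← Fin.prod_const, ← Finset.prod_mul_distrib]
    exact Finset.prod_le_prod (fun i _ => mul_nonneg ht (hl.nonneg (gm_psd A hT) i))
      fun i _ => le_add_of_nonneg_left one_pos.le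
  rw [h4, re_mul_ofReal] at h1
  rw [← herm_det hT.1, div_ofReal_re, le_div_iff₀ (pd_det_re hT)]
  nlinarith [pd_det_re hT]

theorem gm_mul (A : Matrix (Fin k) (Fin n) ℂ) {J : Mat n} (hJ : J.det ≠ 0) :
    gm (A * J) (Jᴴ * T * J) = gm A T := by
  have h : IsUnit Jᴴ.det := by
    rw [Matrix.det_conjTranspose]
    exact (star_ne_zero.2 hJ).isUnit
  simp only [gm, Matrix.mul_inv_rev, Matrix.conjTranspose_mul, Matrix.mul_assoc,
    Matrix.mul_nonsing_inv_cancel_left _ _ hJ.isUnit, Matrix.nonsing_inv_mul_cancel_left _ _ h]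

end euc

variable {M : Mf n} {H : M.Fam (Mat n)} {O : Set M.X} {p : M.X → ℝ} {z : Fin k → M.X → ℂ}

theorem op (h : Dt M H O p z) : IsOpen O := by
  rw [← show {x | p x ≠ 0} = O from Set.ext h.mem]
  exact isOpen_ne_fun h.pol.sm.continuous continuous_const

theorem cur (h : Dt M H O p z) : ∃ C : ℝ, 0 ≤ C ∧
    OnK M O fun e w => (C • H e w + hl (p ∘ e.symm) w).PosSemidef := by
  obtain ⟨C, hC⟩ := h.pol.cur
  refine ⟨max C 0, le_max_right _ _, fun e he w hw hx => lim0 (h.pol.sm e he w hw)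
    ((h.pol.nn _).lt_of_ne' ((h.mem _).2 hx)) fun d hd => ?_⟩
  have := (DM.K63.le0.1 (hC d hd) e he w hw).add
    (h.kae.toMet.le_smul (le_max_left C 0) e he w hw)
  rwa [Pi.add_apply, Pi.add_apply, add_comm _ (M.hs _ e w), add_add_sub_cancel, add_comm] at this

theorem one (h : Dt M H O p z) {C s η : ℝ} (hC : 0 ≤ C) (hs : 0 ≤ s) (hη : 0 < η)
    (hc : OnK M O fun e w => (C • H e w + hl (p ∘ e.symm) w).PosSemidef) (i : Fin k) (y : ℂ) :
    ∃ u, M.Sm u ∧ M.All fun e w => (C • H e w + M.hs u e w).PosSemidef ∧ (e.symm w ∈ O →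
      η ≤ p (e.symm w) → s * normSq (z i (e.symm w) - y) ≤ 1 →
      (C • H e w + M.hs u e w - (s / 8) • r1 (jac M z e w i)).PosSemidef) := by
  obtain ⟨q, q1, q2⟩ := h.sq i y
  have q0 : ∀ x, 0 ≤ q x := fun x => (isClosed_le continuous_const q1.continuous).closure_subset_iff.2
    (fun x hx => (mul_nonneg (h.pol.nn x) (normSq_nonneg _)).trans_eq (q2 x hx).symm) (h.den x)
  have hu : M.Sm fun x => Real.log (p x + s * q x + η) :=
    ((h.pol.sm.add (q1.const_mul s)).add (sm_const η)).log fun x => by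
      have := h.pol.nn x
      have := q0 x
      positivity
  have K : ∀ e ∈ M.C, ∀ w ∈ e.target, e.symm w ∈ O → ∀ t : ℝ, (t = 0 ∨ t = s / 8 ∧
      η ≤ p (e.symm w) ∧ s * normSq (z i (e.symm w) - y) ≤ 1) → (C • H e w + M.hs (fun x =>
        Real.log (p x + s * q x + η)) e w - t • r1 (jac M z e w i)).PosSemidef :=
    fun e he w hw hx t ht => by
      have hz := h.hol i e he w hw hx
      have := key (V := fun v => p (e.symm v) + s * q (e.symm v))
        (g := fun v => (z i ∘ e.symm) v - y) (h.pol.sm e he w hw)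
        ((h.pol.nn _).lt_of_ne' ((h.mem _).2 hx)) (hz.mono fun v hv => hv.sub_const y) hs hη
        (psd_rsmul (h.kae.pos e he w hw).posSemidef hC) (hc e he w hw hx) (by
          filter_upwards [(e.continuousAt_symm hw).preimage_mem_nhds ((op h).mem_nhds hx)] with v hv
          rw [q2 _ hv]
          simp only [Function.comp]
          ring) ht
      simp only [dz_sub (cd_diff (hol_cd hz)) (differentiableAt_const y), dz_const, sub_zero]
        at this
      exact this
  refine ⟨_, hu, fun e he w hw => ⟨?_, fun a b c => K e he w hw a _ (Or.inr ⟨rfl, b, c⟩)⟩⟩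
  have hx := e.map_target hw
  have t : Tendsto e (𝓝 (e.symm w)) (𝓝 w) := by
    have := (e.continuousAt hx).tendsto
    rwa [e.right_inv hw] at this
  refine psd_closed.mem_of_frequently_of_tendsto (t.frequently
    (((mem_closure_iff_frequently.1 (h.den _)).and_eventually (e.open_source.mem_nhds hx)).mono
      fun x a => ?_)) (((h.kae.toTen.smul C).add ((mHES n M).1 _ hu).toTen).sm e he w hw).continuousAt
  have := K e he _ (e.map_source a.2) (by rw [e.left_inv a.2]; exact a.1) 0 (Or.inl rfl)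
  rwa [zero_smul, sub_zero] at this

theorem all [M.Cpt] (h : Dt M H O p z) : ∃ C : ℝ, ∀ s η : ℝ, 0 ≤ s → 0 < η →
    ∀ y : Fin k → ℂ, ∃ f : M.X → ℝ,
    Continuous f ∧ (∀ x, 0 ≤ f x) ∧ ∫ x, f x ∂M.mu H = C ∧ ∀ x ∈ O, η ≤ p x →
      (∀ i, s * normSq (z i x - y i) ≤ 1) → (s / 8) ^ k * jq M H z x ≤ f x := by
  obtain ⟨C, hC, hc⟩ := cur h
  refine ⟨∫ x, M.dq H ((k * C + 1) • H) x ∂M.mu H, fun s η hs hη y => ?_⟩
  choose u u1 u2 using fun i => one h hC hs hη hc i (y i)
  have hU : M.Sm fun x => ∑ i, 1 * u i x := Sm.sum fun i _ => (u1 i).const_mul 1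
  have hT := h.kae.toClo.smul (k * C + 1)
  have e1 : ∀ x, M.ev ((k * C + 1) • H + M.hs fun x => ∑ i, 1 * u i x) x =
      M.ev H x + ∑ i, (C • H (M.ch x) (M.ch x x) + M.hs (u i) (M.ch x) (M.ch x x)) := fun x => by
    rw [ev, Pi.add_apply, Pi.add_apply, (EXH.APX.hs_sum _ _ u u1).ch x, Finset.sum_add_distrib]
    simp only [one_smul, Finset.sum_const, Finset.card_univ, Fintype.card_fin, Pi.smul_apply, ev,
      add_smul, mul_smul, Nat.cast_smul_eq_nsmul]
    abel
  refine ⟨_, ((mINV n M H h.kae.toMet).1 _ (hT.add ((mHES n M).1 _ hU)).toTen).2.2.2.1.continuous,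
    fun x => ?_, mCOH n M H _ _ h.kae.toMet hT hU, fun x hx a b => ?_⟩
  · have := det_ge (k := 0) (t := 0) (h.kae.toMet.ev_pos x) 0 le_rfl
      (S := M.ev ((k * C + 1) • H + M.hs fun x => ∑ i, 1 * u i x) x) (by
        rw [e1, zero_smul, add_zero, add_sub_cancel_left]
        exact Matrix.posSemidef_sum _ fun i _ => ((u2 i).ch x).1)
    exact le_trans (by simp [gm]) this
  · refine det_ge (h.kae.toMet.ev_pos x) _ (by positivity) ?_
    have e2 : ∀ A : Matrix (Fin k) (Fin n) ℂ, Aᴴ * A = ∑ i, r1 (A i) := fun A => by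
      ext i j
      simp only [Matrix.mul_apply, Matrix.sum_apply, r1, Matrix.vecMulVec_apply, Pi.star_apply,
        Matrix.conjTranspose_apply]
    rw [e1, add_sub_add_left_eq_sub, e2, Finset.smul_sum, ← Finset.sum_sub_distrib]
    refine Matrix.posSemidef_sum _ fun i _ => ((u2 i).ch x).2 ?_ ?_ ?_ <;> rw [ch_symm]
    exacts [hx, a, b i]

end PU

open PU

variable {M : Mf n} {H : M.Fam (Mat n)} {O : Set M.X} {p : M.X → ℝ} {z : Fin k → M.X → ℂ}

theorem jq_nonneg (hH : M.Met H) (x : M.X) : 0 ≤ jq M H z x :=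
  (Complex.nonneg_iff.1 (gm_psd _ (hH.ev_pos x)).det_nonneg).1

theorem jac_cmp (hz : ∀ i, HoK M O (z i)) : M.Ov fun e e' x => x ∈ O →
    jac M z e' (e' x) = jac M z e (e x) * M.J e e' x := fun e he e' he' x hx hx' hO => by
  obtain ⟨a, -, -, b, -⟩ := (mTR n M).2.1 e he e' he' x hx hx'
  ext i j
  have c : (e ∘ e'.symm) (e' x) = e x := congrArg e (e'.left_inv hx')
  have d := hol_cd (hz i e he _ (e.map_source hx) (by rwa [e.left_inv hx]))
  have := ((mCHN n _ _ a).2.2.2.2.2.2.2.2.2.1 (z i ∘ e.symm) (by rw [c]; exact cd_diff d) j).1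
  rw [c] at this
  exact (dz_congr (b.mono fun w hw => congrArg (z i) hw.2.2.2.2.1.symm)).trans this

theorem jq_rep (hH : M.Met H) (hz : ∀ i, HoK M O (z i)) {e : M.Ch} (he : e ∈ M.C) {x : M.X}
    (hx : x ∈ e.source) (hO : x ∈ O) : jq M H z x = gm (jac M z e (e x)) (H e (e x)) := by
  rw [jq, ev, jac_cmp hz e he _ (ch_mem x) x hx (mem_ch x) hO,
    hH.cmp e he _ (ch_mem x) x hx (mem_ch x),
    gm_mul _ ((mTR n M).2.1 e he _ (ch_mem x) x hx (mem_ch x)).2.1]

theorem jq_cont (hH : M.Met H) (hO : IsOpen O) (hz : ∀ i, HoK M O (z i)) :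
    ContinuousOn (jq M H z) O := fun x hx => by
  have c : Continuous fun q : Matrix (Fin k) (Fin n) ℂ × Mat n => (q.1 * q.2 * q.1ᴴ).det.re :=
    continuous_re.comp ((continuous_fst.matrix_mul continuous_snd).matrix_mul
      continuous_fst.matrix_conjTranspose).matrix_det
  have a : ContinuousAt (jac M z (M.ch x)) (M.ch x x) := continuousAt_pi.2 fun i =>
    continuousAt_pi.2 fun j => (cd_dz (hol_cd (hz i _ (ch_mem x) _ (ch_tgt x)
      (by rwa [ch_symm]))) j).continuousAt
  have b := ((hH.sm.ch x).inv (hH.ev_det x)).continuousAt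
  refine ((c.continuousAt.comp ((a.prodMk b).comp ((M.ch x).continuousAt (mem_ch x)))).congr
    ?_).continuousWithinAt
  filter_upwards [hO.mem_nhds hx, (M.ch x).open_source.mem_nhds (mem_ch x)] with y h1 h2
  exact (jq_rep hH hz (ch_mem x) h2 h1).symm

theorem hok_cont {f : M.X → ℂ} (hf : HoK M O f) : ContinuousOn f O := fun x hx => by
  refine (((hf _ (ch_mem x) _ (ch_tgt x) (by rwa [ch_symm])).self_of_nhds.continuousAt.comp
    ((M.ch x).continuousAt (mem_ch x))).congr ?_).continuousWithinAt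
  filter_upwards [(M.ch x).open_source.mem_nhds (mem_ch x)] with y h2
  exact congrArg f ((M.ch x).left_inv h2)

/-- A measure that is bounded on the balls is bounded by the measure of Lebesgue. -/
theorem le_of_ball (m : Measure (Fin k → ℂ)) [SFinite m] {C : ℝ≥0∞} (hC : C ≠ ⊤)
    (h : ∀ y r, 0 < r → m (closedBall y r) ≤ C * ENNReal.ofReal (r ^ (2 * k))) :
    ∃ C' : ℝ≥0∞, C' ≠ ⊤ ∧ m ≤ C' • volume := by
  have b0 := (measure_ball_pos (volume : Measure (Fin k → ℂ)) 0 one_pos).ne'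
  have b1 := (measure_ball_lt_top (μ := (volume : Measure (Fin k → ℂ))) (x := 0) (r := 1)).ne
  obtain ⟨c, hc⟩ : ∃ c : NNReal, (c : ℝ≥0∞) = C / volume (ball (0 : Fin k → ℂ) 1) :=
    ⟨_, ENNReal.coe_toNNReal (ENNReal.div_ne_top hC b0)⟩
  refine ⟨c, ENNReal.coe_ne_top, Measure.le_iff'.2 fun s => (Besicovitch.vitaliFamily
    m).measure_le_of_frequently_le (c • volume) Measure.AbsolutelyContinuous.rfl s fun y _ =>
      (Besicovitch.tendsto_filterAt m y).frequently (Eventually.frequently ?_)⟩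
  filter_upwards [self_mem_nhdsWithin] with r hr
  refine (h y r hr).trans_eq ?_
  have : Module.finrank ℝ (Fin k → ℂ) = 2 * k := by
    rw [Module.finrank_pi_fintype]
    simp [mul_comm]
  rw [Measure.smul_apply, Measure.addHaar_closedBall _ _ (le_of_lt hr), this, ENNReal.smul_def,
    smul_eq_mul, hc, mul_comm (ENNReal.ofReal _), ← mul_assoc, ENNReal.div_mul_cancel b0 b1]

theorem Dt.isOpen (h : Dt M H O p z) : IsOpen O := op h

theorem Dt.aem (h : Dt M H O p z) (μ : Measure M.X) :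
    AEMeasurable (fun x i => z i x) (μ.restrict O) ∧ AEMeasurable (jq M H z) (μ.restrict O) :=
  ⟨(continuousOn_pi.2 fun i => hok_cont (h.hol i)).aemeasurable (op h).measurableSet,
    (jq_cont h.kae.toMet (op h) h.hol).aemeasurable (op h).measurableSet⟩

theorem push_ball [M.Cpt] (h : Dt M H O p z) : ∃ C : ℝ, ∀ (y : Fin k → ℂ) (r : ℝ), 0 < r →
    ∫⁻ x in (fun x i => z i x) ⁻¹' closedBall y r, ENNReal.ofReal (jq M H z x)
      ∂(M.mu H).restrict O ≤ ENNReal.ofReal C * ENNReal.ofReal (r ^ (2 * k)) := by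
  have int := (mMU n M H h.kae.toMet).2.2.2.2.1 ℝ
  obtain ⟨C, hC⟩ := all h
  refine ⟨8 ^ k * C, fun y r hr => ?_⟩
  choose f f1 f2 f3 f4 using fun j : ℕ => hC (r ^ 2)⁻¹ (1 / (j + 1)) (by positivity)
    (by positivity) y
  have s1 := (h.aem (M.mu H)).1.nullMeasurableSet_preimage
    (measurableSet_closedBall (x := y) (ε := r))
  have e : ∀ j, ∫⁻ x, ENNReal.ofReal ((8 * r ^ 2) ^ k * f j x) ∂M.mu H =
      ENNReal.ofReal (8 ^ k * C) * ENNReal.ofReal (r ^ (2 * k)) := fun j => by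
    rw [← ofReal_integral_eq_lintegral_ofReal ((int _ (f1 j)).const_mul _)
      (ae_of_all _ fun x => mul_nonneg (by positivity) (f2 j x)), integral_const_mul, f3,
      ← ENNReal.ofReal_mul' (by positivity), mul_pow, ← pow_mul, mul_right_comm]
  have l := lintegral_liminf_le (μ := M.mu H) (u := atTop)
    (f := fun j x => ENNReal.ofReal ((8 * r ^ 2) ^ k * f j x))
    fun j => (continuous_const.mul (f1 j)).measurable.ennreal_ofReal
  simp only [e, liminf_const] at l
  refine (lintegral_mono_ae ?_).trans ((lintegral_mono'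
    (Measure.restrict_le_self.trans Measure.restrict_le_self) le_rfl).trans l)
  filter_upwards [ae_restrict_mem₀ s1,
    ae_restrict_of_ae (ae_restrict_mem (op h).measurableSet)] with x a b
  refine le_liminf_of_le isCobounded_ge_of_top ?_
  filter_upwards [tendsto_one_div_add_atTop_nhds_zero_nat.eventually
    (ge_mem_nhds ((h.pol.nn x).lt_of_ne' ((h.mem x).2 b)))] with j hj
  have := f4 j x b hj fun i => by
    rw [inv_mul_le_one₀ (by positivity), normSq_eq_norm_sq]
    exact pow_le_pow_left₀ (norm_nonneg _)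
      ((norm_le_pi_norm (fun i => z i x - y i) i).trans (mem_closedBall_iff_norm.1 a)) 2
  refine ENNReal.ofReal_le_ofReal (le_trans (le_of_eq ?_)
    (mul_le_mul_of_nonneg_left this (by positivity)))
  rw [← mul_assoc, ← mul_pow, show 8 * r ^ 2 * ((r ^ 2)⁻¹ / 8) = 1 by field_simp, one_pow,
    one_mul]

/-- The direct image of the Jacobian measure. -/
theorem push [M.Cpt] (h : Dt M H O p z) : ∃ C : ℝ≥0∞, C ≠ ⊤ ∧ ∀ G : (Fin k → ℂ) → ℝ≥0∞,
    Measurable G → ∫⁻ x in O, G (fun i => z i x) * ENNReal.ofReal (jq M H z x) ∂M.mu H ≤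
      C * ∫⁻ y, G y := by
  have fin := (mMU n M H h.kae.toMet).2.1
  obtain ⟨C, hC⟩ := push_ball h
  obtain ⟨m1, m2⟩ := h.aem (M.mu H)
  have m3 := m1.mono_ac (withDensity_absolutelyContinuous _ fun x => ENNReal.ofReal (jq M H z x))
  obtain ⟨C', c1, c2⟩ := le_of_ball ((((M.mu H).restrict O).withDensity fun x =>
    ENNReal.ofReal (jq M H z x)).map fun x i => z i x) ENNReal.ofReal_ne_top fun y r hr => by
      rw [Measure.map_apply_of_aemeasurable m3 measurableSet_closedBall, withDensity_apply']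
      exact hC y r hr
  refine ⟨C', c1, fun G hG => ?_⟩
  have := lintegral_mono' c2 (le_refl G)
  rw [lintegral_smul_measure, lintegral_map' hG.aemeasurable m3] at this
  exact ((lintegral_congr fun x => mul_comm _ _).trans (lintegral_withDensity_eq_lintegral_mul₀
    m2.ennreal_ofReal (hG.comp_aemeasurable m1)).symm).trans_le this

end Pool.Agent.Lib.KG56
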