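import Pool.Agent.Lib.KG56.Push

/-! Project kb, block G: the direct image on a product; submersions. -/

open scoped Classical Topology ContDiff ComplexOrder Matrix ENNReal
open Set MeasureTheory Complex Metric Filter

noncomputable section

namespace Pool.Agent.Lib.KG56

open Pool.Agent.Lib.SV (E)
open Pool.Agent.Lib.HS32 Pool.Agent.Lib.HS32.Mf
open Pool.Agent.Lib.KH (HoK Pol OnK)

variable {n k w : ℕ} {M : Mf n} {H : M.Fam (Mat n)} {O : Set M.X} {p : M.X → ℝ}
  {t : Fin k → M.X → ℂ} {z : Fin w → M.X → ℂ}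

theorem split_mp (k w : ℕ) : MeasurePreserving (fun y : Fin (k + w) → ℂ =>
    ((fun i => y (Fin.castAdd w i), fun i => y (Fin.natAdd k i)) : E k × E w)) volume volume :=
  (volume_measurePreserving_sumPiEquivProdPi fun _ : Fin k ⊕ Fin w => ℂ).comp
    ((volume_measurePreserving_piCongrLeft (fun _ => ℂ) finSumFinEquiv).symm _)

/-- The direct image on a product. -/
theorem push2 [M.Cpt] (h : Dt M H O p (Fin.append t z)) {j : M.X → ℝ}
    (hj : ∀ x ∈ O, j x ≤ jq M H (Fin.append t z) x) :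
    ∃ C : ℝ≥0∞, C ≠ ⊤ ∧ ∀ G : E k × E w → ℝ≥0∞, Measurable G →
      ∫⁻ x in O, G ((t · x), (z · x)) * ENNReal.ofReal (j x) ∂M.mu H ≤ C * ∫⁻ q, G q := by
  obtain ⟨C, c, hC⟩ := push h
  refine ⟨C, c, fun G hG => ?_⟩
  have := hC _ (hG.comp (split_mp k w).measurable)
  rw [← (split_mp k w).lintegral_comp hG]
  refine (setLIntegral_mono' h.isOpen.measurableSet fun x hx => ?_).trans this
  simp only [Function.comp, Fin.append_left, Fin.append_right]
  exact mul_le_mul_right (ENNReal.ofReal_le_ofReal (hj x hx)) _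

theorem fderiv_jac (ht : ∀ i, HoK M O (t i)) {e : M.Ch} (he : e ∈ M.C) {x : M.X}
    (hx : x ∈ e.source) (hO : x ∈ O) (v : E n) :
    fderiv ℂ ((fun y => (t · y)) ∘ e.symm) (e x) v = jac M t e (e x) *ᵥ v := by
  have d := fun i => (ht i e he _ (e.map_source hx) (by rwa [e.left_inv hx])).self_of_nhds
  funext i
  rw [show (fun y => (t · y)) ∘ e.symm = fun y i => (t i ∘ e.symm) y from rfl, fderiv_pi d]
  simp only [ContinuousLinearMap.pi_apply, Matrix.mulVec, dotProduct, jac, Matrix.of_apply,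
    ((mHOL n _ _).2.1 (d i))]
  conv_lhs => rw [pi_eq_sum_univ' v]
  simp only [map_sum, map_smul, smul_eq_mul, mul_comm]

/-- The first functions define a submersion where the Jacobian does not vanish. -/
theorem sub_of_jq (ht : ∀ i, HoK M O (t i)) {x : M.X} (hO : x ∈ O)
    (h : jq M H (Fin.append t z) x ≠ 0) : ∃ e ∈ M.C, x ∈ e.source ∧
      Function.Surjective (fderiv ℂ ((fun y => (t · y)) ∘ e.symm) (e x)) := by
  refine ⟨_, ch_mem x, mem_ch x, fun a => ?_⟩
  set A := jac M (Fin.append t z) (M.ch x) (M.ch x x) with hA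
  have u : IsUnit (A * (M.ev H x)⁻¹ * Aᴴ).det := IsUnit.mk0 _ fun c => h (congrArg re c)
  refine ⟨((M.ev H x)⁻¹ * Aᴴ * (A * (M.ev H x)⁻¹ * Aᴴ)⁻¹) *ᵥ Fin.append a 0, funext fun i => ?_⟩
  have := congrFun (congrArg (· *ᵥ Fin.append a 0) (Matrix.mul_nonsing_inv _ u)) (Fin.castAdd w i)
  rw [Matrix.one_mulVec, Fin.append_left, Matrix.mul_assoc A, Matrix.mul_assoc A,
    ← Matrix.mulVec_mulVec, ← Matrix.mul_assoc A] at this
  rw [fderiv_jac ht (ch_mem x) (mem_ch x) hO, ← this]
  simp only [hA, jac, Matrix.mulVec, Matrix.of_apply, Fin.append_left]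

end Pool.Agent.Lib.KG56
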